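import Pool.Agent.Q41.NS.Low

/-! Integrals over discs; the trial space for discs; the bathtub inequality. -/

set_option autoImplicit false

open MeasureTheory Set

namespace Q41.NS

/-- polar coordinates for the integral over a disc -/
theorem ball_int {f : E2 → ℝ} (hf : Continuous f) (p : E2) {R : ℝ} (hR : 0 < R) :
    ∫ x in Metric.ball p R, f x
      = ∫ r in (0:ℝ)..R, ∫ θ in (-Real.pi)..Real.pi,
          r * f (p + pt (r * Real.cos θ, r * Real.sin θ)) := by
  have hc : Continuous fun q => f (p + pt q) := hf.comp (continuous_const.add pt_cont)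
  have h1 : ∫ x in Metric.ball p R, f x = ∫ z in Metric.ball (0 : E2) R, f (p + z) := by
    rw [← (measurePreserving_add_left (volume : Measure E2) p).setIntegral_preimage_emb
      (measurableEmbedding_addLeft p) f (Metric.ball p R)]
    congr 2
    ext z
    simp [dist_eq_norm]
  rw [h1, setInt_pt]
  have hDopen : IsOpen (pt ⁻¹' Metric.ball (0 : E2) R) := Metric.isOpen_ball.preimage pt_cont
  have hDmem : ∀ r θ : ℝ, 0 < r →
      ((r * Real.cos θ, r * Real.sin θ) ∈ pt ⁻¹' Metric.ball (0 : E2) R ↔ r < R) := by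
    intro r θ hr
    rw [mem_preimage, mem_ball_zero_iff]
    have : ‖pt (r * Real.cos θ, r * Real.sin θ)‖ = r := by
      rw [← sq_eq_sq₀ (norm_nonneg _) hr.le, norm_sq]
      simp only [pt_0, pt_1]
      have := Real.sin_sq_add_cos_sq θ
      nlinarith
    rw [this]
  rw [← integral_indicator hDopen.measurableSet, ← integral_comp_polarCoord_symm]
  have ht : polarCoord.target = Ioi (0:ℝ) ×ˢ Ioo (-Real.pi) Real.pi := rfl
  have hs : ∀ q : ℝ × ℝ, polarCoord.symm q = (q.1 * Real.cos q.2, q.1 * Real.sin q.2) :=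
    fun q => rfl
  rw [ht]
  rw [setIntegral_eq_of_subset_of_forall_sdiff_eq_zero (s := Ioo (0:ℝ) R ×ˢ Ioo (-Real.pi) Real.pi)
    (measurableSet_Ioi.prod measurableSet_Ioo)
    (prod_mono Ioo_subset_Ioi_self (Subset.refl _))]
  · rw [setIntegral_congr_fun (g := fun q : ℝ × ℝ => q.1 * f (p + pt (q.1 * Real.cos q.2,
      q.1 * Real.sin q.2))) (measurableSet_Ioo.prod measurableSet_Ioo)]
    · have hcc : Continuous fun q : ℝ × ℝ => q.1 * f (p + pt (q.1 * Real.cos q.2,
          q.1 * Real.sin q.2)) :=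
        continuous_fst.mul (hc.comp (by fun_prop : Continuous fun q : ℝ × ℝ =>
          (q.1 * Real.cos q.2, q.1 * Real.sin q.2)))
      rw [Measure.volume_eq_prod, setIntegral_prod]
      · rw [← integral_Ioc_eq_integral_Ioo, ← intervalIntegral.integral_of_le hR.le]
        congr 1
        funext r
        rw [← integral_Ioc_eq_integral_Ioo, ← intervalIntegral.integral_of_le
          (by linarith [Real.pi_pos])]
      · rw [← Measure.volume_eq_prod]
        exact (hcc.continuousOn.integrableOn_compact (isCompact_Icc.prod isCompact_Icc)).mono_set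
          (prod_mono Ioo_subset_Icc_self Ioo_subset_Icc_self)
    · rintro ⟨r, θ⟩ ⟨hr, _⟩
      simp only
      rw [hs, indicator_of_mem ((hDmem r θ hr.1).2 hr.2), smul_eq_mul]
  · rintro ⟨r, θ⟩ ⟨⟨hr, hθ⟩, hn⟩
    simp only
    rw [hs, indicator_of_notMem, smul_zero]
    intro hmem
    exact hn ⟨⟨hr, (hDmem r θ hr).1 hmem⟩, hθ⟩

/-- the angular integral -/
theorem theta_int (A B C b0 b1 : ℝ) :
    ∫ θ in (-Real.pi)..Real.pi, (A + B * (b0 * Real.cos θ + b1 * Real.sin θ)
      + C * (b0 * Real.cos θ + b1 * Real.sin θ) ^ 2)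
    = 2 * Real.pi * A + Real.pi * C * (b0 ^ 2 + b1 ^ 2) := by
  rw [intervalIntegral.integral_eq_sub_of_hasDerivAt (f := fun θ : ℝ => A * θ
    + B * (b0 * Real.sin θ - b1 * Real.cos θ)
    + C * (b0 ^ 2 * (θ / 2 + Real.sin θ * Real.cos θ / 2)
      + b1 ^ 2 * (θ / 2 - Real.sin θ * Real.cos θ / 2) + b0 * b1 * Real.sin θ ^ 2))]
  · simp only [Real.sin_pi, Real.cos_pi, Real.sin_neg, Real.cos_neg]
    ring
  · intro θ _
    have hs := Real.hasDerivAt_sin θ
    have hcs := Real.hasDerivAt_cos θ
    have hi := hasDerivAt_id θ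
    have d1 := (hi.const_mul A)
    have d2 := ((hs.const_mul b0).sub (hcs.const_mul b1)).const_mul B
    have dsc := (hs.mul hcs).div_const 2
    have d3 := ((((hi.div_const 2).add dsc).const_mul (b0 ^ 2)).add
      (((hi.div_const 2).sub dsc).const_mul (b1 ^ 2))).add ((hs.pow 2).const_mul (b0 * b1))
    have d := (d1.add d2).add (d3.const_mul C)
    refine (d.congr_deriv ?_)
    have h := Real.sin_sq_add_cos_sq θ
    have e : Real.sin θ ^ 2 = 1 - Real.cos θ ^ 2 := by linarith
    ring_nf
    rw [e]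
    ring
  · exact (by fun_prop : Continuous fun θ : ℝ => A + B * (b0 * Real.cos θ + b1 * Real.sin θ)
      + C * (b0 * Real.cos θ + b1 * Real.sin θ) ^ 2).intervalIntegrable _ _

end Q41.NS
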