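import Pool.Agent.Q41.NS.Ball

/-! The trial space for discs. -/

set_option autoImplicit false

open MeasureTheory Set

namespace Q41.NS

/-- the trial space for the disc of centre `p`; `k = 1 / (3 R²)` -/
noncomputable def trT (p : E2) (k : ℝ) : (Fin 3 → ℝ) →ₗ[ℝ] (E2 → ℝ) where
  toFun c := fun x => c 0 + (1 - k * ((x 0 - p 0) ^ 2 + (x 1 - p 1) ^ 2)) *
    (c 1 * (x 0 - p 0) + c 2 * (x 1 - p 1))
  map_add' c d := by funext x; simp only [Pi.add_apply]; ring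
  map_smul' r c := by funext x; simp only [Pi.smul_apply, smul_eq_mul, RingHom.id_apply]; ring

theorem trT_apply (p : E2) (k : ℝ) (c : Fin 3 → ℝ) (x : E2) :
    trT p k c x = c 0 + (1 - k * ((x 0 - p 0) ^ 2 + (x 1 - p 1) ^ 2)) *
    (c 1 * (x 0 - p 0) + c 2 * (x 1 - p 1)) := rfl

theorem trT_smooth (p : E2) (k : ℝ) (c : Fin 3 → ℝ) : ContDiff ℝ 1 (trT p k c) := by
  have : trT p k c = fun x : E2 => c 0 + (1 - k * ((x 0 - p 0) ^ 2 + (x 1 - p 1) ^ 2)) *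
    (c 1 * (x 0 - p 0) + c 2 * (x 1 - p 1)) := rfl
  rw [this]
  fun_prop

theorem trT_grad (p : E2) (k : ℝ) (c : Fin 3 → ℝ) (x : E2) :
    ‖fderiv ℝ (trT p k c) x‖ ^ 2 =
      (-(2 * k * (x 0 - p 0)) * (c 1 * (x 0 - p 0) + c 2 * (x 1 - p 1))
        + (1 - k * ((x 0 - p 0) ^ 2 + (x 1 - p 1) ^ 2)) * c 1) ^ 2
      + (-(2 * k * (x 1 - p 1)) * (c 1 * (x 0 - p 0) + c 2 * (x 1 - p 1))
        + (1 - k * ((x 0 - p 0) ^ 2 + (x 1 - p 1) ^ 2)) * c 2) ^ 2 := by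
  have hd : Differentiable ℝ (trT p k c) := (trT_smooth p k c).differentiable (by simp)
  have := grad_sq hd (a := x 0) (b := x 1)
    (ux := -(2 * k * (x 0 - p 0)) * (c 1 * (x 0 - p 0) + c 2 * (x 1 - p 1))
        + (1 - k * ((x 0 - p 0) ^ 2 + (x 1 - p 1) ^ 2)) * c 1)
    (uy := -(2 * k * (x 1 - p 1)) * (c 1 * (x 0 - p 0) + c 2 * (x 1 - p 1))
        + (1 - k * ((x 0 - p 0) ^ 2 + (x 1 - p 1) ^ 2)) * c 2) ?_ ?_
  · rw [pt_eta] at this
    exact this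
  · simp only [trT_apply, pt_0, pt_1]
    have hi := (hasDerivAt_id (x 0)).sub_const (p 0)
    have h1 := (((hi.pow 2).add_const ((x 1 - p 1) ^ 2)).const_mul k).const_sub 1
    have h2 := (hi.const_mul (c 1)).add_const (c 2 * (x 1 - p 1))
    have h3 := (h1.mul h2).const_add (c 0)
    refine h3.congr_deriv ?_
    simp only [id, Pi.pow_apply]
    ring
  · simp only [trT_apply, pt_0, pt_1]
    have hi := (hasDerivAt_id (x 1)).sub_const (p 1)
    have h1 := (((hi.pow 2).const_add ((x 0 - p 0) ^ 2)).const_mul k).const_sub 1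
    have h2 := (hi.const_mul (c 2)).const_add (c 1 * (x 0 - p 0))
    have h3 := (h1.mul h2).const_add (c 0)
    refine h3.congr_deriv ?_
    simp only [id, Pi.pow_apply]
    ring

theorem trT_mass (p : E2) (k : ℝ) (c : Fin 3 → ℝ) {R : ℝ} (hR : 0 < R) :
    ∫ x in Metric.ball p R, trT p k c x ^ 2
      = Real.pi * (c 0 ^ 2 * R ^ 2
        + (c 1 ^ 2 + c 2 ^ 2) * (R ^ 4 / 4 - k * R ^ 6 / 3 + k ^ 2 * R ^ 8 / 8)) := by
  have hcont : Continuous fun x => trT p k c x ^ 2 := ((trT_smooth p k c).continuous).pow 2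
  rw [ball_int hcont p hR]
  have e : ∀ r : ℝ, ∫ θ in (-Real.pi)..Real.pi,
      r * trT p k c (p + pt (r * Real.cos θ, r * Real.sin θ)) ^ 2
      = 2 * Real.pi * (r * c 0 ^ 2)
        + Real.pi * (r ^ 3 * (1 - k * r ^ 2) ^ 2) * (c 1 ^ 2 + c 2 ^ 2) := by
    intro r
    rw [← theta_int (r * c 0 ^ 2) (2 * r ^ 2 * c 0 * (1 - k * r ^ 2))
      (r ^ 3 * (1 - k * r ^ 2) ^ 2) (c 1) (c 2)]
    apply intervalIntegral.integral_congr
    intro θ _
    simp only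
    rw [trT_apply]
    simp only [PiLp.add_apply, pt_0, pt_1]
    have h : (p 0 + r * Real.cos θ - p 0) ^ 2 + (p 1 + r * Real.sin θ - p 1) ^ 2 = r ^ 2 := by
      have := Real.sin_sq_add_cos_sq θ
      nlinarith
    rw [h]
    ring
  simp_rw [e]
  have := poly_int 0 R 0 (2 * Real.pi * c 0 ^ 2) 0 (Real.pi * (c 1 ^ 2 + c 2 ^ 2)) 0
    (-2 * k * Real.pi * (c 1 ^ 2 + c 2 ^ 2)) 0 (k ^ 2 * Real.pi * (c 1 ^ 2 + c 2 ^ 2))
  rw [show (∫ r in (0:ℝ)..R, (2 * Real.pi * (r * c 0 ^ 2)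
        + Real.pi * (r ^ 3 * (1 - k * r ^ 2) ^ 2) * (c 1 ^ 2 + c 2 ^ 2))) = _ from
      (intervalIntegral.integral_congr fun t _ => by ring).trans this]
  ring

theorem trT_energy (p : E2) (k : ℝ) (c : Fin 3 → ℝ) {R : ℝ} (hR : 0 < R) :
    ∫ x in Metric.ball p R, ‖fderiv ℝ (trT p k c) x‖ ^ 2
      = Real.pi * ((c 1 ^ 2 + c 2 ^ 2) * (R ^ 2 - 2 * k * R ^ 4 + 5 / 3 * k ^ 2 * R ^ 6)) := by
  have hcont : Continuous fun x => ‖fderiv ℝ (trT p k c) x‖ ^ 2 :=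
    ((trT_smooth p k c).continuous_fderiv (by simp)).norm.pow 2
  rw [ball_int hcont p hR]
  have e : ∀ r : ℝ, ∫ θ in (-Real.pi)..Real.pi,
      r * ‖fderiv ℝ (trT p k c) (p + pt (r * Real.cos θ, r * Real.sin θ))‖ ^ 2
      = 2 * Real.pi * (r * (1 - k * r ^ 2) ^ 2 * (c 1 ^ 2 + c 2 ^ 2))
        + Real.pi * (r ^ 3 * (4 * k ^ 2 * r ^ 2 - 4 * k * (1 - k * r ^ 2))) *
          (c 1 ^ 2 + c 2 ^ 2) := by
    intro r
    rw [← theta_int (r * (1 - k * r ^ 2) ^ 2 * (c 1 ^ 2 + c 2 ^ 2)) 0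
      (r ^ 3 * (4 * k ^ 2 * r ^ 2 - 4 * k * (1 - k * r ^ 2))) (c 1) (c 2)]
    apply intervalIntegral.integral_congr
    intro θ _
    simp only
    rw [trT_grad]
    simp only [PiLp.add_apply, pt_0, pt_1, add_sub_cancel_left]
    have h := Real.sin_sq_add_cos_sq θ
    have hr : (r * Real.cos θ) ^ 2 + (r * Real.sin θ) ^ 2 = r ^ 2 := by
      nlinarith
    rw [hr]
    generalize Real.sin θ = S at *
    generalize Real.cos θ = C at *
    have e1 : S ^ 2 = 1 - C ^ 2 := by linarith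
    have e2 : S ^ 3 = S * (1 - C ^ 2) := by rw [← e1]; ring
    have e3 : S ^ 4 = (1 - C ^ 2) ^ 2 := by rw [← e1]; ring
    ring_nf
    rw [e3, e2, e1]
    ring
  simp_rw [e]
  have := poly_int 0 R 0 (2 * Real.pi * (c 1 ^ 2 + c 2 ^ 2)) 0
    (-8 * k * Real.pi * (c 1 ^ 2 + c 2 ^ 2)) 0
    (10 * k ^ 2 * Real.pi * (c 1 ^ 2 + c 2 ^ 2)) 0 0
  rw [show (∫ r in (0:ℝ)..R, (2 * Real.pi * (r * (1 - k * r ^ 2) ^ 2 * (c 1 ^ 2 + c 2 ^ 2))
        + Real.pi * (r ^ 3 * (4 * k ^ 2 * r ^ 2 - 4 * k * (1 - k * r ^ 2))) *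
          (c 1 ^ 2 + c 2 ^ 2))) = _ from
      (intervalIntegral.integral_congr fun t _ => by ring).trans this]
  ring

theorem mu_ball (p : E2) {R : ℝ} (hR : 0 < R) :
    mu 2 (Metric.ball p R) ≤ 112 / 33 / R ^ 2 ∧ mu 3 (Metric.ball p R) ≤ 112 / 33 / R ^ 2 := by
  have hk : (1 / (3 * R ^ 2)) * R ^ 2 = 1 / 3 := by field_simp
  have h4 : R ^ 4 / 4 - (1 / (3 * R ^ 2)) * R ^ 6 / 3 + (1 / (3 * R ^ 2)) ^ 2 * R ^ 8 / 8
      = 11 / 72 * R ^ 4 := by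
    field_simp
    ring
  have h2 : R ^ 2 - 2 * (1 / (3 * R ^ 2)) * R ^ 4 + 5 / 3 * (1 / (3 * R ^ 2)) ^ 2 * R ^ 6
      = 14 / 27 * R ^ 2 := by
    field_simp
    ring
  have h := mem_lset23 (Ω := Metric.ball p R) (L := 112 / 33 / R ^ 2)
    (trT p (1 / (3 * R ^ 2))) (trT_smooth p _) ?_ ?_
  · exact ⟨mu_le two_pos h.1, mu_le three_pos h.2⟩
  · intro c hc
    rw [trT_mass p _ c hR, h4]
    have hR2 : 0 < R ^ 2 := by positivity
    have hR4 : 0 < R ^ 4 := by positivity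
    apply mul_pos Real.pi_pos
    by_contra hle
    push Not at hle
    apply hc
    have n0 := mul_nonneg (sq_nonneg (c 0)) hR2.le
    have n1 := mul_nonneg (sq_nonneg (c 1)) hR4.le
    have n2 := mul_nonneg (sq_nonneg (c 2)) hR4.le
    have h0 : c 0 = 0 := by
      have : c 0 ^ 2 * R ^ 2 = 0 := by nlinarith
      rcases mul_eq_zero.1 this with h | h
      · exact pow_eq_zero_iff (two_ne_zero) |>.1 h
      · exact absurd h hR2.ne'
    have h1 : c 1 = 0 := by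
      have : c 1 ^ 2 * R ^ 4 = 0 := by nlinarith
      rcases mul_eq_zero.1 this with h | h
      · exact pow_eq_zero_iff (two_ne_zero) |>.1 h
      · exact absurd h hR4.ne'
    have h2 : c 2 = 0 := by
      have : c 2 ^ 2 * R ^ 4 = 0 := by nlinarith
      rcases mul_eq_zero.1 this with h | h
      · exact pow_eq_zero_iff (two_ne_zero) |>.1 h
      · exact absurd h hR4.ne'
    funext i
    fin_cases i
    · exact h0
    · exact h1
    · exact h2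
  · intro c
    rw [trT_mass p _ c hR, trT_energy p _ c hR, h4, h2]
    have e : 112 / 33 / R ^ 2 * (Real.pi * (c 0 ^ 2 * R ^ 2 + (c 1 ^ 2 + c 2 ^ 2)
        * (11 / 72 * R ^ 4)))
        = Real.pi * (112 / 33 * c 0 ^ 2 + (c 1 ^ 2 + c 2 ^ 2) * (14 / 27 * R ^ 2)) := by
      field_simp
      ring
    rw [e]
    apply mul_le_mul_of_nonneg_left _ Real.pi_pos.le
    nlinarith [sq_nonneg (c 0)]

end Q41.NS
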