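import Mathlib

/-! Coordinates in the plane. -/

set_option autoImplicit false

open MeasureTheory Set

namespace Q41.NS

/-- the Euclidean plane -/
abbrev E2 := EuclideanSpace ℝ (Fin 2)

/-- the point with the given coordinates -/
noncomputable def pt (p : ℝ × ℝ) : E2 := WithLp.toLp 2 ![p.1, p.2]

@[simp] theorem pt_0 (p : ℝ × ℝ) : (pt p) 0 = p.1 := rfl
@[simp] theorem pt_1 (p : ℝ × ℝ) : (pt p) 1 = p.2 := rfl

theorem pt_eta (x : E2) : pt (x 0, x 1) = x := by
  ext i; fin_cases i <;> rfl

/-- the coordinate homeomorphism -/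
noncomputable def hm : (ℝ × ℝ) ≃ₜ E2 where
  toFun := pt
  invFun := fun x => (x 0, x 1)
  left_inv := fun p => rfl
  right_inv := fun x => pt_eta x
  continuous_toFun := by
    unfold pt
    refine (PiLp.continuous_toLp 2 (fun _ : Fin 2 => ℝ)).comp ?_
    refine continuous_pi fun i => ?_
    fin_cases i
    · exact continuous_fst
    · exact continuous_snd
  continuous_invFun := by
    fun_prop

theorem pt_cont : Continuous pt := hm.continuous_toFun

theorem pt_mp : MeasurePreserving pt volume volume := by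
  have h1 := (volume_preserving_finTwoArrow ℝ).symm
  have h2 := PiLp.volume_preserving_toLp (Fin 2)
  have h3 := h2.comp h1
  have : pt = (WithLp.toLp 2) ∘ (MeasurableEquiv.finTwoArrow (α := ℝ)).symm := by
    funext p
    unfold pt
    simp only [Function.comp]
    congr 1
  rw [this]
  exact h3

theorem pt_emb : MeasurableEmbedding pt := hm.measurableEmbedding

theorem setInt_pt (S : Set E2) (f : E2 → ℝ) :
    ∫ x in S, f x = ∫ p in pt ⁻¹' S, f (pt p) :=
  (pt_mp.setIntegral_preimage_emb pt_emb f S).symm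

theorem vol_pt (S : Set E2) : volume S = volume (pt ⁻¹' S) :=
  (pt_mp.measure_preimage_emb pt_emb S).symm

theorem volR_pt (S : Set E2) : volume.real S = volume.real (pt ⁻¹' S) := by
  rw [measureReal_def, measureReal_def, vol_pt]

theorem norm_sq (x : E2) : ‖x‖ ^ 2 = x 0 ^ 2 + x 1 ^ 2 := by
  rw [EuclideanSpace.norm_sq_eq]; simp

theorem inner_eq (x y : E2) : inner ℝ x y = x 0 * y 0 + x 1 * y 1 := by
  rw [PiLp.inner_apply]; simp [mul_comm]

/-- the norm of a functional -/
theorem opnorm_sq (L : E2 →L[ℝ] ℝ) :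
    ‖L‖ ^ 2 = (L (pt (1, 0))) ^ 2 + (L (pt (0, 1))) ^ 2 := by
  obtain ⟨v, rfl⟩ := (InnerProductSpace.toDual ℝ E2).surjective L
  rw [LinearIsometryEquiv.norm_map, norm_sq]
  simp only [InnerProductSpace.toDual_apply_apply, inner_eq]
  simp

/-- slices of a differentiable function, first variable -/
theorem slice_fst {u : E2 → ℝ} (hu : Differentiable ℝ u) (a b : ℝ) :
    HasDerivAt (fun t => u (pt (t, b))) (fderiv ℝ u (pt (a, b)) (pt (1, 0))) a := by
  have h1 : HasDerivAt (fun t : ℝ => pt (t, b)) (pt (1, 0)) a := by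
    have e : (fun t : ℝ => pt (t, b)) = fun t : ℝ => t • pt (1, 0) + pt (0, b) := by
      funext t; ext i; fin_cases i <;> simp [pt]
    rw [e]
    have := ((hasDerivAt_id a).smul_const (pt (1, 0))).add_const (pt (0, b))
    simpa using this
  exact (hu (pt (a, b))).hasFDerivAt.comp_hasDerivAt a h1

/-- slices of a differentiable function, second variable -/
theorem slice_snd {u : E2 → ℝ} (hu : Differentiable ℝ u) (a b : ℝ) :
    HasDerivAt (fun t => u (pt (a, t))) (fderiv ℝ u (pt (a, b)) (pt (0, 1))) b := by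
  have h1 : HasDerivAt (fun t : ℝ => pt (a, t)) (pt (0, 1)) b := by
    have e : (fun t : ℝ => pt (a, t)) = fun t : ℝ => t • pt (0, 1) + pt (a, 0) := by
      funext t; ext i; fin_cases i <;> simp [pt]
    rw [e]
    have := ((hasDerivAt_id b).smul_const (pt (0, 1))).add_const (pt (a, 0))
    simpa using this
  exact (hu (pt (a, b))).hasFDerivAt.comp_hasDerivAt b h1

/-- the squared norm of the gradient through slices -/
theorem grad_sq {u : E2 → ℝ} (hu : Differentiable ℝ u) {a b ux uy : ℝ}
    (h1 : HasDerivAt (fun t => u (pt (t, b))) ux a)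
    (h2 : HasDerivAt (fun t => u (pt (a, t))) uy b) :
    ‖fderiv ℝ u (pt (a, b))‖ ^ 2 = ux ^ 2 + uy ^ 2 := by
  rw [opnorm_sq, (slice_fst hu a b).unique h1, (slice_snd hu a b).unique h2]

/-! ### integrals over rectangles -/

/-- a continuous function is integrable on a bounded set -/
theorem intOn_bdd {f : E2 → ℝ} (hf : Continuous f) {D : Set E2} (hD : Bornology.IsBounded D) :
    IntegrableOn f D := by
  obtain ⟨r, hr⟩ := hD.subset_closedBall 0
  exact (hf.continuousOn.integrableOn_compact (isCompact_closedBall 0 r)).mono_set hr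

theorem rect_int {f : E2 → ℝ} (hf : Continuous f) {a b c d : ℝ} (hab : a ≤ b) (hcd : c ≤ d) :
    ∫ x in {x : E2 | a < x 0 ∧ x 0 < b ∧ c < x 1 ∧ x 1 < d}, f x
      = ∫ s in a..b, ∫ t in c..d, f (pt (s, t)) := by
  rw [setInt_pt]
  have e : pt ⁻¹' {x : E2 | a < x 0 ∧ x 0 < b ∧ c < x 1 ∧ x 1 < d} = Ioo a b ×ˢ Ioo c d := by
    ext p
    simp only [mem_preimage, mem_setOf_eq, pt_0, pt_1, mem_prod, mem_Ioo]
    tauto
  rw [e, Measure.volume_eq_prod]
  have hc : Continuous fun p => f (pt p) := hf.comp pt_cont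
  rw [setIntegral_prod (fun p => f (pt p))]
  · rw [← integral_Ioc_eq_integral_Ioo, ← intervalIntegral.integral_of_le hab]
    congr 1
    funext s
    rw [← integral_Ioc_eq_integral_Ioo, ← intervalIntegral.integral_of_le hcd]
  · rw [← Measure.volume_eq_prod]
    exact (hc.continuousOn.integrableOn_compact (isCompact_Icc.prod isCompact_Icc)).mono_set
      (prod_mono Ioo_subset_Icc_self Ioo_subset_Icc_self)

end Q41.NS
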