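import Mathlib

/-! Definitions: Neumann eigenvalues, polar duals and the functional `F`. -/

set_option autoImplicit false

open MeasureTheory

namespace Q41.NS

/-- Euclidean space -/
abbrev E (d : ℕ) := EuclideanSpace ℝ (Fin d)

/-- the class `𝒦_d`: bounded convex domains containing the origin -/
def InK {d : ℕ} (Ω : Set (E d)) : Prop :=
  IsOpen Ω ∧ Convex ℝ Ω ∧ Bornology.IsBounded Ω ∧ (0 : E d) ∈ Ω

/-- the polar dual -/
def polar {d : ℕ} (Ω : Set (E d)) : Set (E d) :=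
  {x | ∀ y ∈ closure Ω, inner ℝ x y < 1}

/-- the numbers `L` such that some `k`-dimensional space of `C¹` functions, on which the `L²(Ω)`
form is positive definite, has all its Rayleigh quotients over `Ω` at most `L` -/
def lset {d : ℕ} (k : ℕ) (Ω : Set (E d)) : Set ℝ :=
  {L | ∃ V : Submodule ℝ (E d → ℝ), (∀ u ∈ V, ContDiff ℝ 1 u) ∧ Module.finrank ℝ V = k ∧
    (∀ u ∈ V, u ≠ 0 → 0 < ∫ x in Ω, u x ^ 2) ∧
    ∀ u ∈ V, ∫ x in Ω, ‖fderiv ℝ u x‖ ^ 2 ≤ L * ∫ x in Ω, u x ^ 2}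

/-- the `k`-th Neumann eigenvalue of `Ω` (Courant-Fischer), counted so that `μ₁ = 0` -/
noncomputable def mu {d : ℕ} (k : ℕ) (Ω : Set (E d)) : ℝ := sInf (lset k Ω)

/-- the centroid -/
noncomputable def centroid {d : ℕ} (D : Set (E d)) : E d := (volume.real D)⁻¹ • ∫ x in D, x

/-- the second moment of mass about the centroid -/
noncomputable def moment {d : ℕ} (D : Set (E d)) : ℝ := ∫ x in D, ‖x - centroid D‖ ^ 2

/-- the functional `F_n` of the problem -/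
noncomputable def F {d : ℕ} (n : ℕ) (Ω : Set (E d)) : ℝ :=
  (∑ k ∈ Finset.Icc 2 n, mu k Ω) * volume.real Ω ^ (2 / (d : ℝ)) *
    (volume.real (polar Ω) ^ (1 + 2 / (d : ℝ)) / moment (polar Ω))

/-- the open rectangle `(-1/3, 5/3) × (-1/2, 1/2)` -/
def Om : Set (E 2) := {x | -1 / 3 < x 0 ∧ x 0 < 5 / 3 ∧ -1 / 2 < x 1 ∧ x 1 < 1 / 2}

end Q41.NS
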