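import Pool.Agent.Q41.NS.Kite

/-! Volume, centroid and moment of the kite. -/

set_option autoImplicit false

open MeasureTheory Set

namespace Q41.NS

theorem Kite_vol : volume.real Kite = 36 / 5 := by
  have h := kite_quad 1 0 0 0
  simp only [zero_mul, add_zero, mul_one, sub_zero, mul_zero] at h
  rw [setIntegral_const, smul_eq_mul, mul_one] at h
  exact h

theorem kite_y : ∫ x in Kite, x 1 = 0 := by
  rw [kite_int (by fun_prop)]
  simp only [pt_1]
  have e : ∀ h : ℝ, ∫ t in (-h)..h, t = 0 := by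
    intro h
    rw [integral_id]; ring
  simp_rw [e]
  simp

theorem coord_int {D : Set E2} (hD : Bornology.IsBounded D) (i : Fin 2) :
    (∫ x in D, x) i = ∫ x in D, x i := by
  have hI : IntegrableOn (fun x : E2 => x) D := by
    obtain ⟨r, hr⟩ := hD.subset_closedBall 0
    exact (continuous_id.continuousOn.integrableOn_compact (isCompact_closedBall 0 r)).mono_set hr
  exact ((EuclideanSpace.proj (𝕜 := ℝ) i).integral_comp_comm hI).symm

theorem Kite_centroid : centroid Kite = pt (-4 / 5, 0) := by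
  have h0 : (∫ x in Kite, x) 0 = -144 / 25 := by
    rw [coord_int Kite_bdd]
    have h := kite_quad 0 1 0 0
    simp only [zero_mul, add_zero, mul_one, zero_add, mul_zero, one_mul, zero_sub] at h
    rw [h]; ring
  have h1 : (∫ x in Kite, x) 1 = 0 := by
    rw [coord_int Kite_bdd]; exact kite_y
  unfold centroid
  rw [Kite_vol]
  ext i
  fin_cases i
  · change (36 / 5 : ℝ)⁻¹ * (∫ x in Kite, x) 0 = -4 / 5
    rw [h0]; norm_num
  · change (36 / 5 : ℝ)⁻¹ * (∫ x in Kite, x) 1 = 0
    rw [h1]; norm_num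

theorem Kite_moment : moment Kite = 1158 / 125 := by
  unfold moment
  rw [Kite_centroid]
  have e : ∀ x : E2, ‖x - pt (-4 / 5, 0)‖ ^ 2
      = 16 / 25 + 8 / 5 * x 0 + 1 * (x 0) ^ 2 + 1 * (x 1) ^ 2 := by
    intro x
    rw [norm_sq]
    simp only [PiLp.sub_apply, pt_0, pt_1]
    ring
  simp_rw [e]
  rw [kite_quad]
  norm_num

end Q41.NS
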