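import Pool.Agent.Q41.NS.Tub
import Pool.Agent.Q41.NS.BallMu
import Pool.Agent.Q41.NS.KiteMom

/-! The comparison of the rectangle with all balls. -/

set_option autoImplicit false

open MeasureTheory Set

namespace Q41.NS

theorem F3_eq (Ω : Set (E 2)) : F 3 Ω = (mu 2 Ω + mu 3 Ω) * volume.real Ω *
    (volume.real (polar Ω) ^ 2 / moment (polar Ω)) := by
  unfold F
  have e : Finset.Icc 2 3 = {2, 3} := rfl
  rw [e, Finset.sum_insert (by simp), Finset.sum_singleton]
  have e2 : (2 : ℝ) / ((2 : ℕ) : ℝ) = 1 := by norm_num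
  have e3 : (1 : ℝ) + 1 = ((2 : ℕ) : ℝ) := by norm_num
  rw [e2, Real.rpow_one, e3, Real.rpow_natCast]

theorem Om_inK : InK Om := by
  refine ⟨?_, ?_, ?_, ?_⟩
  · have e : Om = {x : E2 | -1 / 3 < x 0} ∩ {x : E2 | x 0 < 5 / 3} ∩ {x : E2 | -1 / 2 < x 1} ∩
        {x : E2 | x 1 < 1 / 2} := by
      ext x
      simp only [mem_inter_iff, mem_ofPred_eq, Om]
      tauto
    rw [e]
    refine IsOpen.inter (IsOpen.inter (IsOpen.inter ?_ ?_) ?_) ?_
    · exact isOpen_lt continuous_const (by fun_prop)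
    · exact isOpen_lt (by fun_prop) continuous_const
    · exact isOpen_lt continuous_const (by fun_prop)
    · exact isOpen_lt (by fun_prop) continuous_const
  · rintro x ⟨x1, x2, x3, x4⟩ y ⟨y1, y2, y3, y4⟩ a b ha hb hab
    have hb' : b = 1 - a := by linarith
    have hx : ∀ i, (a • x + b • y) i = a * x i + b * y i := fun i => rfl
    refine ⟨?_, ?_, ?_, ?_⟩
    all_goals
      rw [hx]
      rcases ha.eq_or_lt with h | h
      · rw [← h] at hb' ⊢
        rw [hb']
        linarith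
      · nlinarith
  · exact Rc_bdd _ _ _ _
  · refine ⟨?_, ?_, ?_, ?_⟩ <;> norm_num

theorem polar_bdd {Ω : Set (E 2)} (ho : IsOpen Ω) (h0 : (0 : E 2) ∈ Ω) :
    Bornology.IsBounded (polar Ω) := by
  obtain ⟨r, hr, hb⟩ := Metric.isOpen_iff.1 ho 0 h0
  rw [isBounded_iff_forall_norm_le]
  refine ⟨2 / r, fun x hx => ?_⟩
  by_cases hx0 : x = 0
  · rw [hx0, norm_zero]; positivity
  have hn : 0 < ‖x‖ := norm_pos_iff.2 hx0
  have hy : (r / 2 / ‖x‖) • x ∈ Ω := by
    apply hb
    rw [mem_ball_zero_iff, norm_smul, Real.norm_eq_abs, abs_of_pos (by positivity)]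
    rw [div_mul_cancel₀ _ hn.ne']
    linarith
  have h := hx _ (subset_closure hy)
  rw [inner_smul_right, real_inner_self_eq_norm_sq] at h
  have e : r / 2 / ‖x‖ * ‖x‖ ^ 2 = r / 2 * ‖x‖ := by
    field_simp
  rw [e] at h
  rw [le_div_iff₀ hr]
  linarith

theorem moment_nonneg (D : Set (E 2)) : 0 ≤ moment D := integral_nonneg fun x => by positivity

theorem second_le {D : Set (E 2)} (hD : Bornology.IsBounded D) :
    volume.real D ^ 2 / moment D ≤ 2 * Real.pi := by
  have h := bath D hD (centroid D)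
  have hpi := Real.pi_pos
  rcases (moment_nonneg D).eq_or_lt with h0 | h0
  · rw [← h0, div_zero]; positivity
  · rw [div_le_iff₀ h0]
    exact h

theorem ball_vol (p : E 2) {R : ℝ} (hR : 0 < R) : volume.real (Metric.ball p R) = Real.pi * R ^ 2 := by
  rw [measureReal_def, EuclideanSpace.volume_ball_fin_two, ENNReal.toReal_mul, ENNReal.toReal_pow,
    ENNReal.toReal_ofReal hR.le, ENNReal.toReal_ofReal Real.pi_pos.le]
  ring

theorem F3_ball (p : E 2) {R : ℝ} (hR : 0 < R) (h0 : (0 : E 2) ∈ Metric.ball p R) :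
    F 3 (Metric.ball p R) ≤ 448 / 33 * Real.pi ^ 2 := by
  rw [F3_eq, ball_vol p hR]
  have hpi := Real.pi_pos
  obtain ⟨h2, h3⟩ := mu_ball p hR
  have n2 := mu_nonneg two_pos (Metric.ball p R)
  have n3 := mu_nonneg three_pos (Metric.ball p R)
  have hs := second_le (polar_bdd Metric.isOpen_ball h0)
  have hs0 : 0 ≤ volume.real (polar (Metric.ball p R)) ^ 2 / moment (polar (Metric.ball p R)) :=
    div_nonneg (sq_nonneg _) (moment_nonneg _)
  have h1 : (mu 2 (Metric.ball p R) + mu 3 (Metric.ball p R)) * (Real.pi * R ^ 2)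
      ≤ 224 / 33 * Real.pi := by
    have hR2 : 0 < Real.pi * R ^ 2 := by positivity
    have h := mul_le_mul_of_nonneg_right (add_le_add h2 h3) hR2.le
    have e : (112 / 33 / R ^ 2 + 112 / 33 / R ^ 2) * (Real.pi * R ^ 2) = 224 / 33 * Real.pi := by
      field_simp
      ring
    rw [e] at h
    exact h
  have h := mul_le_mul h1 hs hs0 (by positivity)
  calc _ ≤ 224 / 33 * Real.pi * (2 * Real.pi) := h
    _ = _ := by ring

theorem F3_Om : 16200 / 1158 * Real.pi ^ 2 ≤ F 3 Om := by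
  rw [F3_eq, polar_Om, Kite_vol, Kite_moment, Om_vol]
  have h2 := mu2_Om
  have h3 := mu3_Om
  have : (16200 / 1158 : ℝ) * Real.pi ^ 2
      = (Real.pi ^ 2 / 4 + Real.pi ^ 2) * 2 * ((36 / 5) ^ 2 / (1158 / 125)) := by ring
  rw [this]
  apply mul_le_mul_of_nonneg_right _ (by norm_num)
  linarith

end Q41.NS
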