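import Pool.Agent.Q41.NS.RectMu

/-! The polar dual of the rectangle. -/

set_option autoImplicit false

open MeasureTheory Set

namespace Q41.NS

/-- the kite -/
def Kite : Set E2 := {x | |x 1| < 2 * (1 + x 0 / 3) ∧ |x 1| < 2 * (1 - 5 * x 0 / 3)}

theorem mem_closure_Om (y : E2) :
    y ∈ closure Om ↔ (-1 / 3 ≤ y 0 ∧ y 0 ≤ 5 / 3) ∧ (-1 / 2 ≤ y 1 ∧ y 1 ≤ 1 / 2) := by
  have h1 : y ∈ closure Om ↔ (y 0, y 1) ∈ hm ⁻¹' closure Om := by
    rw [mem_preimage]
    have : hm (y 0, y 1) = y := pt_eta y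
    rw [this]
  rw [h1, hm.preimage_closure]
  have e : hm ⁻¹' Om = Ioo (-1 / 3) (5 / 3) ×ˢ Ioo (-1 / 2) (1 / 2) := by
    ext p
    have : hm p = pt p := rfl
    simp only [mem_preimage, this, mem_prod, mem_Ioo]
    unfold Om
    simp only [mem_ofPred_eq, pt_0, pt_1]
    tauto
  rw [e, closure_prod_eq, closure_Ioo (by norm_num), closure_Ioo (by norm_num)]
  simp only [mem_prod, mem_Icc]

theorem polar_Om : polar Om = Kite := by
  ext x
  unfold polar Kite
  simp only [mem_ofPred_eq]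
  constructor
  · intro h
    have c1 := h (pt (-1/3, 1/2)) (by rw [mem_closure_Om]; simp only [pt_0, pt_1]; norm_num)
    have c2 := h (pt (-1/3, -1/2)) (by rw [mem_closure_Om]; simp only [pt_0, pt_1]; norm_num)
    have c3 := h (pt (5/3, 1/2)) (by rw [mem_closure_Om]; simp only [pt_0, pt_1]; norm_num)
    have c4 := h (pt (5/3, -1/2)) (by rw [mem_closure_Om]; simp only [pt_0, pt_1]; norm_num)
    rw [inner_eq] at c1 c2 c3 c4
    simp only [pt_0, pt_1] at c1 c2 c3 c4
    constructor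
    · rw [abs_lt]; constructor <;> linarith
    · rw [abs_lt]; constructor <;> linarith
  · rintro ⟨h1, h2⟩ y hy
    rw [mem_closure_Om] at hy
    obtain ⟨⟨a1, a2⟩, b1, b2⟩ := hy
    rw [inner_eq]
    have h3 : x 1 * y 1 ≤ |x 1| / 2 := by
      have : |x 1 * y 1| ≤ |x 1| * (1 / 2) := by
        rw [abs_mul]
        apply mul_le_mul_of_nonneg_left _ (abs_nonneg _)
        rw [abs_le]; constructor <;> linarith
      have := le_abs_self (x 1 * y 1)
      linarith
    rcases le_total 0 (x 0) with h0 | h0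
    · nlinarith
    · nlinarith

theorem Kite_open : IsOpen (pt ⁻¹' Kite) := by
  have e : pt ⁻¹' Kite = {p : ℝ × ℝ | |p.2| < 2 * (1 + p.1 / 3)} ∩
      {p : ℝ × ℝ | |p.2| < 2 * (1 - 5 * p.1 / 3)} := rfl
  rw [e]
  apply IsOpen.inter
  · exact isOpen_lt (by fun_prop) (by fun_prop)
  · exact isOpen_lt (by fun_prop) (by fun_prop)

theorem Kite_sub {p : ℝ × ℝ} (hp : p ∈ pt ⁻¹' Kite) : p.1 ∈ Ioo (-3:ℝ) (3/5) ∧ p.2 ∈ Ioo (-3:ℝ) 3 := by
  obtain ⟨h1, h2⟩ := hp
  simp only [pt_0, pt_1] at h1 h2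
  have h0 := abs_nonneg p.2
  have l1 := le_abs_self p.2
  have l2 := neg_abs_le p.2
  refine ⟨⟨by linarith, by linarith⟩, ⟨by linarith, by linarith⟩⟩

theorem kite_int {f : E2 → ℝ} (hf : Continuous f) :
    ∫ x in Kite, f x
      = (∫ s in (-3:ℝ)..0, ∫ t in (-(2 * (1 + s / 3)))..(2 * (1 + s / 3)), f (pt (s, t)))
        + ∫ s in (0:ℝ)..(3/5), ∫ t in (-(2 * (1 - 5 * s / 3)))..(2 * (1 - 5 * s / 3)),
            f (pt (s, t)) := by
  rw [setInt_pt, ← integral_indicator Kite_open.measurableSet]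
  have hc : Continuous fun p => f (pt p) := hf.comp pt_cont
  have hI : Integrable ((pt ⁻¹' Kite).indicator fun p => f (pt p)) := by
    rw [integrable_indicator_iff Kite_open.measurableSet]
    refine (hc.continuousOn.integrableOn_compact
      ((isCompact_Icc (a := (-3:ℝ)) (b := 3/5)).prod (isCompact_Icc (a := (-3:ℝ)) (b := 3)))).mono_set ?_
    intro p hp
    have := Kite_sub hp
    exact ⟨Ioo_subset_Icc_self this.1, Ioo_subset_Icc_self this.2⟩
  rw [Measure.volume_eq_prod] at hI ⊢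
  rw [integral_prod _ hI]
  set g : ℝ → ℝ := fun s => ∫ t, (pt ⁻¹' Kite).indicator (fun p => f (pt p)) (s, t) with hg
  have hgi : Integrable g := hI.integral_prod_left
  have hg0 : ∀ s, s ∉ Ioc (-3:ℝ) (3/5) → g s = 0 := by
    intro s hs
    rw [hg]
    simp only
    have : ∀ t, (pt ⁻¹' Kite).indicator (fun p => f (pt p)) (s, t) = 0 := by
      intro t
      apply indicator_of_notMem
      intro hp
      exact hs (Ioo_subset_Ioc_self (Kite_sub hp).1)
    simp [this]
  have hG : ∀ (s h : ℝ), 0 ≤ h → (∀ t, (s, t) ∈ pt ⁻¹' Kite ↔ |t| < h) →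
      g s = ∫ t in (-h)..h, f (pt (s, t)) := by
    intro s h hh hiff
    rw [hg]
    simp only
    rw [intervalIntegral.integral_of_le (by linarith), integral_Ioc_eq_integral_Ioo,
      ← integral_indicator measurableSet_Ioo]
    congr 1
    funext t
    by_cases ht : |t| < h
    · rw [indicator_of_mem ((hiff t).2 ht), indicator_of_mem (by rw [mem_Ioo]; exact abs_lt.1 ht)]
    · rw [indicator_of_notMem (fun hp => ht ((hiff t).1 hp)),
        indicator_of_notMem (fun hp => ht (abs_lt.2 (mem_Ioo.1 hp)))]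
  have hmem : ∀ s t : ℝ, (s, t) ∈ pt ⁻¹' Kite ↔
      |t| < 2 * (1 + s / 3) ∧ |t| < 2 * (1 - 5 * s / 3) := fun s t => Iff.rfl
  rw [← setIntegral_eq_integral_of_forall_compl_eq_zero hg0,
    ← intervalIntegral.integral_of_le (by norm_num),
    ← intervalIntegral.integral_add_adjacent_intervals (b := 0) hgi.intervalIntegrable
      hgi.intervalIntegrable]
  congr 1
  · apply intervalIntegral.integral_congr
    intro s hs
    rw [uIcc_of_le (by norm_num)] at hs
    refine hG s _ (by linarith [hs.1]) fun t => ?_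
    rw [hmem]
    constructor
    · exact fun h => h.1
    · intro h; exact ⟨h, by linarith [hs.2]⟩
  · apply intervalIntegral.integral_congr
    intro s hs
    rw [uIcc_of_le (by norm_num)] at hs
    refine hG s _ (by linarith [hs.2]) fun t => ?_
    rw [hmem]
    constructor
    · exact fun h => h.2
    · intro h; exact ⟨by linarith [hs.1], h⟩

theorem Kite_bdd : Bornology.IsBounded Kite := by
  refine (Rc_bdd (-3) (3/5) (-3) 3).subset ?_
  intro x hx
  have := Kite_sub (p := (x 0, x 1)) (by rw [mem_preimage, pt_eta]; exact hx)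
  exact ⟨this.1.1, this.1.2, this.2.1, this.2.2⟩

/-- integrals over the kite of functions whose inner integrals are known -/
theorem kite_quad (A B C D : ℝ) :
    ∫ x in Kite, (A + B * x 0 + C * (x 0) ^ 2 + D * (x 1) ^ 2)
      = 36 / 5 * A - 144 / 25 * B + 1134 / 125 * C + 24 / 5 * D := by
  rw [kite_int (by fun_prop)]
  simp only [pt_0, pt_1]
  have e : ∀ s h : ℝ, ∫ t in (-h)..h, (A + B * s + C * s ^ 2 + D * t ^ 2)
      = 2 * h * (A + B * s + C * s ^ 2) + 2 / 3 * D * h ^ 3 := by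
    intro s h
    have := poly_int (-h) h (A + B * s + C * s ^ 2) 0 D 0 0 0 0 0
    rw [show (∫ t in (-h)..h, (A + B * s + C * s ^ 2 + D * t ^ 2)) = _ from
      (intervalIntegral.integral_congr fun t _ => by ring).trans this]
    ring
  simp_rw [e]
  have h1 := poly_int (-3) 0 (4 * A + 16 / 3 * D) (4 * B + 4 / 3 * A + 16 / 3 * D)
    (4 * C + 4 / 3 * B + 16 / 9 * D) (4 / 3 * C + 16 / 81 * D) 0 0 0 0
  rw [show (∫ s in (-3:ℝ)..0, (2 * (2 * (1 + s / 3)) * (A + B * s + C * s ^ 2)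
      + 2 / 3 * D * (2 * (1 + s / 3)) ^ 3)) = _ from
      (intervalIntegral.integral_congr fun t _ => by ring).trans h1]
  have h2 := poly_int 0 (3/5) (4 * A + 16 / 3 * D) (4 * B - 20 / 3 * A - 80 / 3 * D)
    (4 * C - 20 / 3 * B + 400 / 9 * D) (-20 / 3 * C - 2000 / 81 * D) 0 0 0 0
  rw [show (∫ s in (0:ℝ)..(3/5), (2 * (2 * (1 - 5 * s / 3)) * (A + B * s + C * s ^ 2)
      + 2 / 3 * D * (2 * (1 - 5 * s / 3)) ^ 3)) = _ from
      (intervalIntegral.integral_congr fun t _ => by ring).trans h2]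
  ring

end Q41.NS
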