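import Pool.Agent.Q41.NS.Rect

/-! Membership and lower-bound lemmas for `lset`. -/

set_option autoImplicit false

open MeasureTheory Set

namespace Q41.NS

/-- integrals of polynomials of degree at most seven -/
theorem poly_int (a b c0 c1 c2 c3 c4 c5 c6 c7 : ℝ) :
    ∫ t in a..b, (c0 + c1 * t + c2 * t ^ 2 + c3 * t ^ 3 + c4 * t ^ 4 + c5 * t ^ 5 + c6 * t ^ 6
      + c7 * t ^ 7)
    = (c0 * b + c1 * b ^ 2 / 2 + c2 * b ^ 3 / 3 + c3 * b ^ 4 / 4 + c4 * b ^ 5 / 5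
        + c5 * b ^ 6 / 6 + c6 * b ^ 7 / 7 + c7 * b ^ 8 / 8)
      - (c0 * a + c1 * a ^ 2 / 2 + c2 * a ^ 3 / 3 + c3 * a ^ 4 / 4 + c4 * a ^ 5 / 5
        + c5 * a ^ 6 / 6 + c6 * a ^ 7 / 7 + c7 * a ^ 8 / 8) := by
  rw [intervalIntegral.integral_eq_sub_of_hasDerivAt (f := fun t : ℝ => c0 * t + c1 * t ^ 2 / 2
    + c2 * t ^ 3 / 3 + c3 * t ^ 4 / 4 + c4 * t ^ 5 / 5 + c5 * t ^ 6 / 6 + c6 * t ^ 7 / 7
    + c7 * t ^ 8 / 8)]
  · intro t _
    have hp : ∀ (n : ℕ) (c : ℝ), HasDerivAt (fun t : ℝ => c * t ^ (n + 1) / ((n : ℝ) + 1))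
        (c * t ^ n) t := by
      intro n c
      have h := ((hasDerivAt_pow (n + 1) t).const_mul c).div_const ((n : ℝ) + 1)
      refine h.congr_deriv ?_
      have hn : (n : ℝ) + 1 ≠ 0 := by positivity
      push_cast
      field_simp
    have h := (((((((hp 0 c0).add (hp 1 c1)).add (hp 2 c2)).add (hp 3 c3)).add
      (hp 4 c4)).add (hp 5 c5)).add (hp 6 c6)).add (hp 7 c7)
    refine (h.congr_deriv ?_).congr_of_eventuallyEq ?_
    · ring
    · filter_upwards with s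
      simp only [Pi.add_apply]
      push_cast
      ring
  · exact (by fun_prop : Continuous fun t : ℝ => c0 + c1 * t + c2 * t ^ 2 + c3 * t ^ 3
      + c4 * t ^ 4 + c5 * t ^ 5 + c6 * t ^ 6 + c7 * t ^ 7).intervalIntegrable _ _

/-- membership through a linear parametrisation -/
theorem mem_lset {k : ℕ} {Ω : Set E2} {L : ℝ} (T : (Fin k → ℝ) →ₗ[ℝ] (E2 → ℝ))
    (h1 : ∀ c, ContDiff ℝ 1 (T c)) (h2 : ∀ c, c ≠ 0 → 0 < ∫ x in Ω, T c x ^ 2)
    (h3 : ∀ c, ∫ x in Ω, ‖fderiv ℝ (T c) x‖ ^ 2 ≤ L * ∫ x in Ω, T c x ^ 2) :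
    L ∈ lset k Ω := by
  have hinj : Function.Injective T := by
    rw [← LinearMap.ker_eq_bot, LinearMap.ker_eq_bot']
    intro c hc
    by_contra hne
    have := h2 c hne
    rw [hc] at this
    simp at this
  refine ⟨LinearMap.range T, ?_, ?_, ?_, ?_⟩
  · rintro u ⟨c, rfl⟩; exact h1 c
  · rw [LinearMap.finrank_range_of_inj hinj]; simp
  · rintro u ⟨c, rfl⟩ hu
    exact h2 c (fun h => hu (by rw [h, map_zero]))
  · rintro u ⟨c, rfl⟩; exact h3 c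

/-- a three-dimensional trial space serves for `k = 2` and for `k = 3` -/
theorem mem_lset23 {Ω : Set E2} {L : ℝ} (T : (Fin 3 → ℝ) →ₗ[ℝ] (E2 → ℝ))
    (h1 : ∀ c, ContDiff ℝ 1 (T c)) (h2 : ∀ c, c ≠ 0 → 0 < ∫ x in Ω, T c x ^ 2)
    (h3 : ∀ c, ∫ x in Ω, ‖fderiv ℝ (T c) x‖ ^ 2 ≤ L * ∫ x in Ω, T c x ^ 2) :
    L ∈ lset 2 Ω ∧ L ∈ lset 3 Ω := by
  refine ⟨?_, mem_lset T h1 h2 h3⟩
  have hsur : Function.Surjective (![0, 1, 1] : Fin 3 → Fin 2) := by
    intro i; fin_cases i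
    · exact ⟨0, rfl⟩
    · exact ⟨1, rfl⟩
  have hinj := LinearMap.funLeft_injective_of_surjective ℝ ℝ (![0, 1, 1] : Fin 3 → Fin 2) hsur
  refine mem_lset (T.comp (LinearMap.funLeft ℝ ℝ (![0, 1, 1] : Fin 3 → Fin 2))) ?_ ?_ ?_
  · intro c; exact h1 _
  · intro c hc
    exact h2 _ (fun h => hc (hinj (by rw [h, map_zero])))
  · intro c; exact h3 _

/-- elements of `lset` are nonnegative -/
theorem lset_nonneg {k : ℕ} (hk : 0 < k) {Ω : Set E2} {L : ℝ} (hL : L ∈ lset k Ω) : 0 ≤ L := by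
  obtain ⟨V, _, hf, hp, hb⟩ := hL
  have : Nontrivial V := by
    apply Module.nontrivial_of_finrank_pos (R := ℝ)
    rw [hf]; exact hk
  obtain ⟨⟨u, hu⟩, hne⟩ := exists_ne (0 : V)
  have hu0 : u ≠ 0 := fun h => hne (Subtype.ext h)
  have h1 := hp u hu hu0
  have h2 := hb u hu
  have h3 : 0 ≤ ∫ x in Ω, ‖fderiv ℝ u x‖ ^ 2 := integral_nonneg fun x => by positivity
  by_contra hlt
  push Not at hlt
  nlinarith

theorem mu_nonneg {k : ℕ} (hk : 0 < k) (Ω : Set E2) : 0 ≤ mu k Ω :=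
  Real.sInf_nonneg fun _ h => lset_nonneg hk h

theorem mu_le {k : ℕ} (hk : 0 < k) {Ω : Set E2} {L : ℝ} (hL : L ∈ lset k Ω) : mu k Ω ≤ L :=
  csInf_le ⟨0, fun _ h => lset_nonneg hk h⟩ hL

/-- integration as a functional -/
noncomputable def intF (V : Submodule ℝ (E2 → ℝ)) (hV : ∀ u ∈ V, ContDiff ℝ 1 u) (S : Set E2)
    (hS : Bornology.IsBounded S) : V →ₗ[ℝ] ℝ where
  toFun u := ∫ x in S, (u : E2 → ℝ) x
  map_add' u v := by
    have := integral_add (μ := volume.restrict S) (intOn_bdd (hV _ u.2).continuous hS)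
      (intOn_bdd (hV _ v.2).continuous hS)
    simpa using this
  map_smul' c u := by
    have := integral_const_mul (μ := volume.restrict S) c (fun x => (u : E2 → ℝ) x)
    simpa using this

theorem intF_apply (V : Submodule ℝ (E2 → ℝ)) (hV : ∀ u ∈ V, ContDiff ℝ 1 u) (S : Set E2)
    (hS : Bornology.IsBounded S) (u : V) : intF V hV S hS u = ∫ x in S, (u : E2 → ℝ) x := rfl

/-- a nonzero element with vanishing mean -/
theorem exists_mean {V : Submodule ℝ (E2 → ℝ)} (hV : ∀ u ∈ V, ContDiff ℝ 1 u)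
    (hf : Module.finrank ℝ V = 2) {S : Set E2} (hS : Bornology.IsBounded S) :
    ∃ u ∈ V, u ≠ 0 ∧ ∫ x in S, u x = 0 := by
  have : FiniteDimensional ℝ V := Module.finite_of_finrank_pos (by rw [hf]; norm_num)
  have h := LinearMap.ker_ne_bot_of_finrank_lt (f := intF V hV S hS)
    (by rw [hf]; simp)
  obtain ⟨⟨u, hu⟩, hk, hne⟩ := (Submodule.ne_bot_iff _).1 h
  refine ⟨u, hu, fun h => hne (Subtype.ext h), ?_⟩
  rw [LinearMap.mem_ker] at hk
  exact hk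

/-- a nonzero element with two vanishing means -/
theorem exists_mean2 {V : Submodule ℝ (E2 → ℝ)} (hV : ∀ u ∈ V, ContDiff ℝ 1 u)
    (hf : Module.finrank ℝ V = 3) {S T : Set E2} (hS : Bornology.IsBounded S)
    (hT : Bornology.IsBounded T) :
    ∃ u ∈ V, u ≠ 0 ∧ ∫ x in S, u x = 0 ∧ ∫ x in T, u x = 0 := by
  have : FiniteDimensional ℝ V := Module.finite_of_finrank_pos (by rw [hf]; norm_num)
  have h := LinearMap.ker_ne_bot_of_finrank_lt (f := (intF V hV S hS).prod (intF V hV T hT))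
    (by rw [hf]; simp)
  obtain ⟨⟨u, hu⟩, hk, hne⟩ := (Submodule.ne_bot_iff _).1 h
  refine ⟨u, hu, fun h => hne (Subtype.ext h), ?_⟩
  rw [LinearMap.mem_ker] at hk
  have := Prod.ext_iff.1 hk
  exact this

end Q41.NS
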