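import Pool.Agent.Q41.NS.Poin
import Pool.Agent.Q41.NS.Coord
import Pool.Agent.Q41.NS.Defs

/-! Lower bounds for the Neumann eigenvalues of the rectangle. -/

set_option autoImplicit false

open MeasureTheory Set

namespace Q41.NS

/-- scaling of iterated integrals -/
theorem scale_int (g : ℝ → ℝ → ℝ) {a b c d : ℝ} (hab : a < b) (hcd : c < d) :
    ∫ s in (0:ℝ)..1, ∫ t in (0:ℝ)..1, g ((b - a) * s + a) ((d - c) * t + c)
      = ((b - a) * (d - c))⁻¹ * ∫ s in a..b, ∫ t in c..d, g s t := by
  have h1 : b - a ≠ 0 := sub_ne_zero.2 hab.ne'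
  have h2 : d - c ≠ 0 := sub_ne_zero.2 hcd.ne'
  have e1 : ∀ s : ℝ, ∫ t in (0:ℝ)..1, g s ((d - c) * t + c) = (d - c)⁻¹ * ∫ t in c..d, g s t := by
    intro s
    have := intervalIntegral.integral_comp_mul_add (a := 0) (b := 1) (fun t => g s t) h2 c
    rw [this, smul_eq_mul]
    congr 2 <;> ring
  simp_rw [e1]
  rw [intervalIntegral.integral_const_mul]
  have := intervalIntegral.integral_comp_mul_add (a := 0) (b := 1)
    (fun s => ∫ t in c..d, g s t) h1 a
  rw [this, smul_eq_mul, mul_inv]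
  have e2 : (b - a) * 0 + a = a := by ring
  have e3 : (b - a) * 1 + a = b := by ring
  rw [e2, e3]
  ring

/-- an axis-parallel open rectangle -/
def Rc (a b c d : ℝ) : Set E2 := {x : E2 | a < x 0 ∧ x 0 < b ∧ c < x 1 ∧ x 1 < d}

/-- Neumann-Poincaré on a rectangle -/
theorem rect_poincare {u : E2 → ℝ} (hu : ContDiff ℝ 1 u) {a b c d l : ℝ} (hab : a < b)
    (hcd : c < d) (h1 : b - a ≤ l) (h2 : d - c ≤ l) (h0 : ∫ x in Rc a b c d, u x = 0) :
    Real.pi ^ 2 * ∫ x in Rc a b c d, u x ^ 2
      ≤ l ^ 2 * ∫ x in Rc a b c d, ‖fderiv ℝ u x‖ ^ 2 := by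
  have hc : Continuous u := hu.continuous
  have hdf : Continuous (fderiv ℝ u) := hu.continuous_fderiv (by simp)
  have hd : Differentiable ℝ u := hu.differentiable (by simp)
  unfold Rc at *
  rw [rect_int hc hab.le hcd.le] at h0
  rw [rect_int (by fun_prop) hab.le hcd.le, rect_int (by fun_prop) hab.le hcd.le]
  set X : ℝ → ℝ → ℝ := fun s t => fderiv ℝ u (pt (s, t)) (pt (1, 0)) with hX
  set Y : ℝ → ℝ → ℝ := fun s t => fderiv ℝ u (pt (s, t)) (pt (0, 1)) with hY
  have hpt : ∀ p q : ℝ × ℝ → ℝ, Continuous p → Continuous q →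
      Continuous fun z : ℝ × ℝ => pt (p z, q z) := fun p q hp hq =>
    pt_cont.comp (hp.prodMk hq)
  have hP := hpt (fun z => (b - a) * z.1 + a) (fun z => (d - c) * z.2 + c) (by fun_prop)
    (by fun_prop)
  have key := sq_poincare (F := fun s t => u (pt ((b - a) * s + a, (d - c) * t + c)))
    (Fx := fun s t => (b - a) * X ((b - a) * s + a) ((d - c) * t + c))
    (Fy := fun s t => (d - c) * Y ((b - a) * s + a) ((d - c) * t + c))
    (hc.comp hP)
    (continuous_const.mul ((hdf.comp hP).clm_apply continuous_const))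
    (continuous_const.mul ((hdf.comp hP).clm_apply continuous_const))
    (by
      intro x y
      have := (slice_fst hd ((b - a) * x + a) ((d - c) * y + c)).comp x
        (((hasDerivAt_id x).const_mul (b - a)).add_const a)
      simp only [mul_one] at this
      exact this.congr_deriv (mul_comm _ _))
    (by
      intro x y
      have := (slice_snd hd ((b - a) * x + a) ((d - c) * y + c)).comp y
        (((hasDerivAt_id y).const_mul (d - c)).add_const c)
      simp only [mul_one] at this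
      exact this.congr_deriv (mul_comm _ _))
    (by
      rw [scale_int (fun s t => u (pt (s, t))) hab hcd, h0, mul_zero])
  simp only [mul_pow] at key
  rw [scale_int (fun s t => u (pt (s, t)) ^ 2) hab hcd,
    scale_int (fun s t => (b - a) ^ 2 * X s t ^ 2) hab hcd,
    scale_int (fun s t => (d - c) ^ 2 * Y s t ^ 2) hab hcd] at key
  simp only [intervalIntegral.integral_const_mul] at key
  have hba : 0 < b - a := sub_pos.2 hab
  have hdc : 0 < d - c := sub_pos.2 hcd
  have hprod : 0 < ((b - a) * (d - c))⁻¹ := by positivity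
  have key2 : Real.pi ^ 2 * ∫ s in a..b, ∫ t in c..d, u (pt (s, t)) ^ 2 ≤
      (b - a) ^ 2 * (∫ s in a..b, ∫ t in c..d, X s t ^ 2)
        + (d - c) ^ 2 * ∫ s in a..b, ∫ t in c..d, Y s t ^ 2 := by
    have : ((b - a) * (d - c))⁻¹ * (Real.pi ^ 2 * ∫ s in a..b, ∫ t in c..d, u (pt (s, t)) ^ 2) ≤
        ((b - a) * (d - c))⁻¹ * ((b - a) ^ 2 * (∫ s in a..b, ∫ t in c..d, X s t ^ 2)
        + (d - c) ^ 2 * ∫ s in a..b, ∫ t in c..d, Y s t ^ 2) := by
      linarith [key]
    exact le_of_mul_le_mul_left this hprod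
  have hXn : 0 ≤ ∫ s in a..b, ∫ t in c..d, X s t ^ 2 :=
    intervalIntegral.integral_nonneg hab.le fun s _ =>
      intervalIntegral.integral_nonneg hcd.le fun t _ => sq_nonneg _
  have hYn : 0 ≤ ∫ s in a..b, ∫ t in c..d, Y s t ^ 2 :=
    intervalIntegral.integral_nonneg hab.le fun s _ =>
      intervalIntegral.integral_nonneg hcd.le fun t _ => sq_nonneg _
  have hl1 : (b - a) ^ 2 ≤ l ^ 2 := pow_le_pow_left₀ hba.le h1 2
  have hl2 : (d - c) ^ 2 ≤ l ^ 2 := pow_le_pow_left₀ hdc.le h2 2
  have hsplit : ∫ s in a..b, ∫ t in c..d, ‖fderiv ℝ u (pt (s, t))‖ ^ 2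
      = (∫ s in a..b, ∫ t in c..d, X s t ^ 2) + ∫ s in a..b, ∫ t in c..d, Y s t ^ 2 := by
    have hXc : Continuous (Function.uncurry fun s t => X s t ^ 2) :=
      ((hdf.comp pt_cont).clm_apply continuous_const).pow 2
    have hYc : Continuous (Function.uncurry fun s t => Y s t ^ 2) :=
      ((hdf.comp pt_cont).clm_apply continuous_const).pow 2
    have i1 : Continuous fun s => ∫ t in c..d, X s t ^ 2 :=
      intervalIntegral.continuous_parametric_intervalIntegral_of_continuous' hXc _ _
    have i2 : Continuous fun s => ∫ t in c..d, Y s t ^ 2 :=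
      intervalIntegral.continuous_parametric_intervalIntegral_of_continuous' hYc _ _
    rw [← ii_add i1 i2]
    congr 1
    funext s
    have j1 : Continuous fun t => X s t ^ 2 :=
      hXc.comp (by fun_prop : Continuous fun t : ℝ => (s, t))
    have j2 : Continuous fun t => Y s t ^ 2 :=
      hYc.comp (by fun_prop : Continuous fun t : ℝ => (s, t))
    rw [← ii_add j1 j2]
    congr 1
    funext t
    exact opnorm_sq _
  rw [hsplit]
  nlinarith [mul_le_mul_of_nonneg_right hl1 hXn, mul_le_mul_of_nonneg_right hl2 hYn]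

end Q41.NS
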