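import Pool.Agent.Q41.NS.Low

/-! The second and third Neumann eigenvalues of the rectangle. -/

set_option autoImplicit false

open MeasureTheory Set

namespace Q41.NS

theorem Om_eq : Om = Rc (-1 / 3) (5 / 3) (-1 / 2) (1 / 2) := rfl

theorem Rc_bdd (a b c d : ℝ) : Bornology.IsBounded (Rc a b c d) := by
  rw [isBounded_iff_forall_norm_le]
  refine ⟨|a| + |b| + |c| + |d|, ?_⟩
  rintro x ⟨h1, h2, h3, h4⟩
  have hx : |x 0| ≤ |a| + |b| := by
    rw [abs_le]
    constructor
    · have := neg_abs_le a; have := abs_nonneg b; linarith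
    · have := le_abs_self b; have := abs_nonneg a; linarith
  have hy : |x 1| ≤ |c| + |d| := by
    rw [abs_le]
    constructor
    · have := neg_abs_le c; have := abs_nonneg d; linarith
    · have := le_abs_self d; have := abs_nonneg c; linarith
  have hn : ‖x‖ ≤ |x 0| + |x 1| := by
    apply le_of_sq_le_sq
    · rw [norm_sq, ← sq_abs (x 0), ← sq_abs (x 1)]
      nlinarith [abs_nonneg (x 0), abs_nonneg (x 1)]
    · positivity
  linarith

/-- splitting the rectangle into two unit squares -/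
theorem Om_split {f : E2 → ℝ} (hf : Continuous f) :
    ∫ x in Om, f x = (∫ x in Rc (-1 / 3) (2 / 3) (-1 / 2) (1 / 2), f x)
      + ∫ x in Rc (2 / 3) (5 / 3) (-1 / 2) (1 / 2), f x := by
  rw [Om_eq]
  unfold Rc
  rw [rect_int hf (by norm_num) (by norm_num), rect_int hf (by norm_num) (by norm_num),
    rect_int hf (by norm_num) (by norm_num)]
  have hc : Continuous (Function.uncurry fun s t => f (pt (s, t))) := hf.comp pt_cont
  have i1 : Continuous fun s => ∫ t in (-1/2:ℝ)..(1/2), f (pt (s, t)) :=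
    intervalIntegral.continuous_parametric_intervalIntegral_of_continuous' hc _ _
  rw [intervalIntegral.integral_add_adjacent_intervals (i1.intervalIntegrable _ _)
    (i1.intervalIntegrable _ _)]

theorem low2 {L : ℝ} (hL : L ∈ lset 2 Om) : Real.pi ^ 2 / 4 ≤ L := by
  obtain ⟨V, hV, hf, hp, hb⟩ := hL
  obtain ⟨u, hu, hne, hm⟩ := exists_mean hV hf (Rc_bdd (-1 / 3) (5 / 3) (-1 / 2) (1 / 2))
  have h1 := rect_poincare (hV u hu) (l := 2) (by norm_num) (by norm_num) (by norm_num)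
    (by norm_num) hm
  have h2 := hp u hu hne
  have h3 := hb u hu
  rw [Om_eq] at h2 h3
  by_contra hlt
  push Not at hlt
  nlinarith

theorem low3 {L : ℝ} (hL : L ∈ lset 3 Om) : Real.pi ^ 2 ≤ L := by
  obtain ⟨V, hV, hf, hp, hb⟩ := hL
  obtain ⟨u, hu, hne, hm1, hm2⟩ := exists_mean2 hV hf
    (Rc_bdd (-1 / 3) (2 / 3) (-1 / 2) (1 / 2)) (Rc_bdd (2 / 3) (5 / 3) (-1 / 2) (1 / 2))
  have hd := hV u hu
  have h1 := rect_poincare hd (l := 1) (by norm_num) (by norm_num) (by norm_num)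
    (by norm_num) hm1
  have h1' := rect_poincare hd (l := 1) (by norm_num) (by norm_num) (by norm_num)
    (by norm_num) hm2
  have h2 := hp u hu hne
  have h3 := hb u hu
  have hdf : Continuous (fderiv ℝ u) := hd.continuous_fderiv (by simp)
  have hc : Continuous u := hd.continuous
  have s1 := Om_split (f := fun x => u x ^ 2) (by fun_prop)
  have s2 := Om_split (f := fun x => ‖fderiv ℝ u x‖ ^ 2) (by fun_prop)
  by_contra hlt
  push Not at hlt
  nlinarith

/-- the affine trial space -/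
noncomputable def affT : (Fin 3 → ℝ) →ₗ[ℝ] (E2 → ℝ) where
  toFun c := fun x => c 0 + c 1 * (x 0 - 2 / 3) + c 2 * x 1
  map_add' c d := by funext x; simp only [Pi.add_apply]; ring
  map_smul' r c := by funext x; simp only [Pi.smul_apply, smul_eq_mul, RingHom.id_apply]; ring

theorem affT_apply (c : Fin 3 → ℝ) (x : E2) :
    affT c x = c 0 + c 1 * (x 0 - 2 / 3) + c 2 * x 1 := rfl

theorem affT_smooth (c : Fin 3 → ℝ) : ContDiff ℝ 1 (affT c) := by
  have : affT c = fun x : E2 => c 0 + c 1 * (x 0 - 2 / 3) + c 2 * x 1 := rfl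
  rw [this]
  fun_prop

theorem affT_mass (c : Fin 3 → ℝ) :
    ∫ x in Om, affT c x ^ 2 = 2 * c 0 ^ 2 + 2 / 3 * c 1 ^ 2 + 1 / 6 * c 2 ^ 2 := by
  rw [Om_eq]
  unfold Rc
  have hc : Continuous fun x => affT c x ^ 2 := ((affT_smooth c).continuous).pow 2
  rw [rect_int hc (by norm_num) (by norm_num)]
  simp only [affT_apply, pt_0, pt_1]
  have e1 : ∀ s : ℝ, ∫ t in (-1/2:ℝ)..(1/2), (c 0 + c 1 * (s - 2 / 3) + c 2 * t) ^ 2
      = (c 0 + c 1 * (s - 2 / 3)) ^ 2 + 1 / 12 * c 2 ^ 2 := by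
    intro s
    have := poly_int (-1/2) (1/2) ((c 0 + c 1 * (s - 2 / 3)) ^ 2)
      (2 * (c 0 + c 1 * (s - 2 / 3)) * c 2) (c 2 ^ 2) 0 0 0 0 0
    rw [show (∫ t in (-1/2:ℝ)..(1/2), (c 0 + c 1 * (s - 2 / 3) + c 2 * t) ^ 2) = _ from
      (intervalIntegral.integral_congr fun t _ => by ring).trans this]
    ring
  simp_rw [e1]
  have := poly_int (-1/3) (5/3) ((c 0 - 2 / 3 * c 1) ^ 2 + 1 / 12 * c 2 ^ 2)
      (2 * (c 0 - 2 / 3 * c 1) * c 1) (c 1 ^ 2) 0 0 0 0 0
  rw [show (∫ s in (-1/3:ℝ)..(5/3), ((c 0 + c 1 * (s - 2 / 3)) ^ 2 + 1 / 12 * c 2 ^ 2)) = _ from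
      (intervalIntegral.integral_congr fun t _ => by ring).trans this]
  ring

theorem Om_vol : volume.real Om = 2 := by
  have h := rect_int (f := fun _ => (1:ℝ)) continuous_const (a := -1/3) (b := 5/3)
    (c := -1/2) (d := 1/2) (by norm_num) (by norm_num)
  rw [setIntegral_const] at h
  rw [Om_eq]
  unfold Rc
  simp only [smul_eq_mul, mul_one] at h
  rw [h]
  simp
  norm_num

theorem affT_energy (c : Fin 3 → ℝ) :
    ∫ x in Om, ‖fderiv ℝ (affT c) x‖ ^ 2 = 2 * (c 1 ^ 2 + c 2 ^ 2) := by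
  have hd : Differentiable ℝ (affT c) := (affT_smooth c).differentiable (by simp)
  have e : ∀ x : E2, ‖fderiv ℝ (affT c) x‖ ^ 2 = c 1 ^ 2 + c 2 ^ 2 := by
    intro x
    have := grad_sq hd (a := x 0) (b := x 1) (ux := c 1) (uy := c 2) ?_ ?_
    · rwa [pt_eta] at this
    · simp only [affT_apply, pt_0, pt_1]
      have := ((((hasDerivAt_id (x 0)).sub_const (2 / 3)).const_mul (c 1)).const_add
        (c 0)).add_const (c 2 * x 1)
      simpa using this
    · simp only [affT_apply, pt_0, pt_1]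
      have := ((hasDerivAt_id (x 1)).const_mul (c 2)).const_add (c 0 + c 1 * (x 0 - 2 / 3))
      simpa using this
  simp_rw [e]
  rw [setIntegral_const, Om_vol]
  simp

theorem Om_nonempty : (lset 2 Om).Nonempty ∧ (lset 3 Om).Nonempty := by
  have h := mem_lset23 (Ω := Om) (L := 12) affT affT_smooth ?_ ?_
  · exact ⟨⟨12, h.1⟩, ⟨12, h.2⟩⟩
  · intro c hc
    rw [affT_mass]
    by_contra hle
    push Not at hle
    apply hc
    have h0 : c 0 = 0 := by
      have : c 0 ^ 2 ≤ 0 := by nlinarith [sq_nonneg (c 0), sq_nonneg (c 1), sq_nonneg (c 2)]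
      exact pow_eq_zero_iff (two_ne_zero) |>.1 (le_antisymm this (sq_nonneg _))
    have h1 : c 1 = 0 := by
      have : c 1 ^ 2 ≤ 0 := by nlinarith [sq_nonneg (c 0), sq_nonneg (c 1), sq_nonneg (c 2)]
      exact pow_eq_zero_iff (two_ne_zero) |>.1 (le_antisymm this (sq_nonneg _))
    have h2 : c 2 = 0 := by
      have : c 2 ^ 2 ≤ 0 := by nlinarith [sq_nonneg (c 0), sq_nonneg (c 1), sq_nonneg (c 2)]
      exact pow_eq_zero_iff (two_ne_zero) |>.1 (le_antisymm this (sq_nonneg _))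
    funext i
    fin_cases i
    · exact h0
    · exact h1
    · exact h2
  · intro c
    rw [affT_mass, affT_energy]
    nlinarith [sq_nonneg (c 0), sq_nonneg (c 1), sq_nonneg (c 2)]

theorem mu2_Om : Real.pi ^ 2 / 4 ≤ mu 2 Om := le_csInf Om_nonempty.1 fun _ h => low2 h
theorem mu3_Om : Real.pi ^ 2 ≤ mu 3 Om := le_csInf Om_nonempty.2 fun _ h => low3 h

end Q41.NS
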