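import Pool.Agent.Q41.NS.Ball

/-! The bathtub inequality. -/

set_option autoImplicit false

open MeasureTheory Set

namespace Q41.NS

theorem bath_ball (c : E2) {R : ℝ} (hR : 0 < R) :
    ∫ x in Metric.ball c R, (R ^ 2 - ‖x - c‖ ^ 2) = Real.pi * R ^ 4 / 2 := by
  have hc : Continuous fun x : E2 => R ^ 2 - ‖x - c‖ ^ 2 := by fun_prop
  rw [ball_int hc c hR]
  have e : ∀ r : ℝ, ∫ θ in (-Real.pi)..Real.pi,
      r * (R ^ 2 - ‖c + pt (r * Real.cos θ, r * Real.sin θ) - c‖ ^ 2)
      = 2 * Real.pi * (r * (R ^ 2 - r ^ 2)) := by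
    intro r
    have : ∀ θ : ℝ, r * (R ^ 2 - ‖c + pt (r * Real.cos θ, r * Real.sin θ) - c‖ ^ 2)
        = r * (R ^ 2 - r ^ 2) := by
      intro θ
      rw [add_sub_cancel_left, norm_sq]
      simp only [pt_0, pt_1]
      have := Real.sin_sq_add_cos_sq θ
      have hr : (r * Real.cos θ) ^ 2 + (r * Real.sin θ) ^ 2 = r ^ 2 := by
        nlinarith
      rw [hr]
    simp_rw [this]
    rw [intervalIntegral.integral_const, smul_eq_mul]
    ring
  simp_rw [e]
  have := poly_int 0 R 0 (2 * Real.pi * R ^ 2) 0 (-2 * Real.pi) 0 0 0 0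
  rw [show (∫ r in (0:ℝ)..R, (2 * Real.pi * (r * (R ^ 2 - r ^ 2)))) = _ from
      (intervalIntegral.integral_congr fun t _ => by ring).trans this]
  ring

theorem bath (D : Set E2) (hD : Bornology.IsBounded D) (c : E2) :
    volume.real D ^ 2 ≤ 2 * Real.pi * ∫ x in D, ‖x - c‖ ^ 2 := by
  have hI0 : 0 ≤ ∫ x in D, ‖x - c‖ ^ 2 := integral_nonneg fun x => by positivity
  rcases (measureReal_nonneg (μ := volume) (s := D)).eq_or_lt with hV | hV
  · rw [← hV]
    have hpi := Real.pi_pos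
    have : 0 ≤ 2 * Real.pi * ∫ x in D, ‖x - c‖ ^ 2 := by positivity
    simpa using this
  set V := volume.real D with hVdef
  set R := Real.sqrt (V / Real.pi) with hRdef
  have hVp : 0 < V / Real.pi := div_pos hV Real.pi_pos
  have hR : 0 < R := Real.sqrt_pos.2 hVp
  have hR2 : R ^ 2 = V / Real.pi := Real.sq_sqrt hVp.le
  set h : E2 → ℝ := fun x => max (R ^ 2 - ‖x - c‖ ^ 2) 0 with hh
  have hhc : Continuous h := by rw [hh]; fun_prop
  have hh0 : ∀ x, x ∉ Metric.ball c R → h x = 0 := by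
    intro x hx
    rw [Metric.mem_ball, not_lt, dist_eq_norm] at hx
    rw [hh]
    simp only
    apply max_eq_right
    nlinarith
  have hhI : Integrable h := by
    rw [← integrableOn_iff_integrable_of_support_subset (s := Metric.ball c R)]
    · exact intOn_bdd hhc Metric.isBounded_ball
    · intro x hx
      by_contra hn
      exact hx (hh0 x hn)
  have h1 : ∫ x in D, h x ≤ ∫ x, h x :=
    setIntegral_le_integral hhI (Filter.Eventually.of_forall fun x => le_max_right _ _)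
  have h2 : ∫ x, h x = Real.pi * R ^ 4 / 2 := by
    rw [← setIntegral_eq_integral_of_forall_compl_eq_zero hh0, ← bath_ball c hR]
    apply setIntegral_congr_fun Metric.isOpen_ball.measurableSet
    intro x hx
    rw [Metric.mem_ball, dist_eq_norm] at hx
    rw [hh]
    simp only
    apply max_eq_left
    have := norm_nonneg (x - c)
    nlinarith
  have hg : Continuous fun x : E2 => R ^ 2 - ‖x - c‖ ^ 2 := by fun_prop
  have h3 : ∫ x in D, (R ^ 2 - ‖x - c‖ ^ 2) ≤ ∫ x in D, h x :=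
    integral_mono (intOn_bdd hg hD) (intOn_bdd hhc hD) fun x => le_max_left _ _
  have hn : Continuous fun x : E2 => ‖x - c‖ ^ 2 := by fun_prop
  have h4 : ∫ x in D, (R ^ 2 - ‖x - c‖ ^ 2) = V * R ^ 2 - ∫ x in D, ‖x - c‖ ^ 2 := by
    rw [integral_sub (intOn_bdd continuous_const hD) (intOn_bdd hn hD), setIntegral_const,
      smul_eq_mul]
  have h5 : V * R ^ 2 - ∫ x in D, ‖x - c‖ ^ 2 ≤ Real.pi * R ^ 4 / 2 := by
    rw [← h4, ← h2]; exact h3.trans h1
  have h6 : Real.pi * R ^ 4 / 2 = V * R ^ 2 / 2 := by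
    have : R ^ 4 = R ^ 2 * R ^ 2 := by ring
    rw [this, hR2]
    have := Real.pi_ne_zero
    field_simp
  have h7 : V * R ^ 2 / 2 ≤ ∫ x in D, ‖x - c‖ ^ 2 := by linarith
  rw [hR2] at h7
  have h8 := mul_le_mul_of_nonneg_left h7 (by have := Real.pi_pos; positivity : 0 ≤ 2 * Real.pi)
  have h9 : 2 * Real.pi * (V * (V / Real.pi) / 2) = V ^ 2 := by
    have := Real.pi_ne_zero
    field_simp
  rw [h9] at h8
  exact h8

end Q41.NS
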